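import Pool.Agent.K7.H28.AF.Tame

/-!
# Smooth Schoenflies for 3-spheres which bound a ball that is almost affine at small scales

A smooth 3-sphere in `ℝ⁴` (so in `S⁴`) is given together with a parametrization `H` of the topological
ball which it bounds: `H` is injective near the closed unit ball, and a local diffeomorphism near the
unit sphere. We show that the sphere is unknotted if the homeomorphism `g` given by `H` from the open
unit ball onto its image belongs to the class `Tame ε₀`, for some universal `ε₀ > 0`. For example it is
enough that `g` is `ε₀`-almost affine at small scales near its bad points: for all points `p` near the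
bad point and for all small `δ` there is a linear isomorphism `L` such that `L⁻¹ (g q - g p)` differs
from `q - p` by at most `ε₀ δ`, for all `q` with `‖q - p‖ ≤ δ`. Here `L` depends on `p` and `δ`, and no
bound for `L`, `L⁻¹` or their ratio is assumed: `g` need not be differentiable, Lipschitz or
quasiconformal, and the linear maps may rotate as `δ` tends to zero.

The class `Tame ε₀` of homeomorphisms between smooth 4-manifolds (possibly noncompact, possibly exotic)
also contains the homeomorphisms which are asymptotically affine at small scales in smooth coordinates,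
or cone monotone, or smooth with derivatives of rank at least three (with compact sets of bad points),
and is closed under inverses, compositions, extensions and limits relative to infinity.

The method: the mollification of an almost affine map at the scale `δ` has a derivative close to `L`,
so it is a local diffeomorphism; the radius of the mollification may vary slowly and tend to zero. The
radius is chosen positive at the bad points; for the maps between manifolds one mollifies in one chart
after the other, and uses that the norm of `L` grows slower than every power of `1 / δ`.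
-/

set_option autoImplicit false

open Set Filter Topology Metric Function
open scoped Manifold ContDiff

noncomputable section

namespace Pool.Agent.Results.MP_6c077c_gt.AffineAtSmallScales

open Pool.Agent.K7.H28.AF.T4

attribute [-instance] TopCat.of.chartedSpace

/-- `G` is a diffeomorphism of `ℝ⁴`, equal to a linear isometry outside a compact set (so it extends
to a diffeomorphism of `S⁴`) -/
def StandardAtInfinity (G : R4 → R4) : Prop :=
  ContDiff ℝ ∞ G ∧ (∃ K : R4 → R4, ContDiff ℝ ∞ K ∧ LeftInverse K G ∧ RightInverse K G) ∧
    ∃ (O : R4 ≃ₗᵢ[ℝ] R4) (R : ℝ), ∀ x, R ≤ ‖x‖ → G x = O x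

/-- `H` bounds an unknotted ball: some diffeomorphism of `S⁴` agrees with `H` on the unit sphere and
maps the closed unit ball onto the ball parametrized by `H` -/
def Unknotted (H : R4 → R4) : Prop :=
  ∃ G : R4 → R4, StandardAtInfinity G ∧ (∀ x, ‖x‖ = 1 → G x = H x) ∧
    G '' closedBall 0 1 = H '' closedBall 0 1

theorem result : ∃ ε₀ : ℝ, 0 < ε₀ ∧ ∀ (H : R4 → R4) (δ : ℝ), 0 < δ →
    InjOn H (ball 0 (1 + δ)) → (∀ x, 1 ≤ ‖x‖ → ‖x‖ < 1 + δ → LocDiff H x) →
    ∀ (V : TopologicalSpace.Opens R4) (g : openSubset unitBall ≃ₜ openSubset V),
      (∀ x, incl V (g x) = H (incl unitBall x)) →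
      Tame ε₀ (openSubset unitBall) (openSubset V) g → Unknotted H := by
  obtain ⟨ε₀, hε₀, happ⟩ := approx_of_tame
  refine ⟨ε₀, hε₀, fun H δ hδ hi hs V g hg ht => ?_⟩
  obtain ⟨Φ, C, hC, -, hoff⟩ := happ _ _ g ht univ isOpen_univ (fun _ => mem_univ _)
  obtain ⟨G, O, R, hb, hL, h1, h2, h3⟩ := Pool.Agent.R865.SchT.sch_of_diffeo 4 H δ hδ hi hs V
    g hg g.surjective Φ C hC hoff
  obtain ⟨hG, hK⟩ := Pool.Agent.Y522.smooth_inverse hb hL
  exact ⟨G, ⟨hG, hK, O, R, h3⟩, h1, h2⟩

end Pool.Agent.Results.MP_6c077c_gt.AffineAtSmallScales
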