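import Mathlib
import Pool.Agent.K7.H28.CB.C4

/-!
# Smooth Schoenflies for 3-spheres which bound a ball that is coarsely monotone at one scale

Every smooth embedding of the 3-sphere in `ℝ⁴` (so in `S⁴`) is the restriction of a continuous map
`H` of the closed unit ball to `ℝ⁴` which is a local diffeomorphism near the unit sphere (`H` need not
be injective in the ball). We show that the sphere is unknotted if `H` is coarsely monotone at one
scale `r x`, which may depend on the point `x` and is positive at the points where `H` is not a local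
diffeomorphism: for every unit vector `u` there is a linear functional `ℓ` such that on the ball `B` of
radius `r x` about `x` the function `ℓ ∘ H` increases in the direction `u` with speed at least `m`, up to
an error `κ m (r x)`, while `|ℓ (H y - H x)| ≤ r x` for `y` in `B`. Here `m > 0` may depend on `x`, the
constant `κ > 0` is universal, and the scale varies slowly, by at most `κ m ‖y - x‖`.

Nothing is assumed about `H` at the scales smaller than `r x`, and the scale need not be small. For
instance it is enough that `H` is almost affine at the scale `r x`: there is a linear map `T` with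
`‖T (H y - H z) - (y - z)‖ ≤ κ (r x)` for `y`, `z` in `B` (take `m = 1 / 3`, `ℓ v = ⟨T v, u⟩ / 3`).
If `H` is moreover injective (so it parametrizes the topological ball bounded by the sphere), then
the diffeomorphism of `ℝ⁴` which we construct maps the unit ball onto this ball. Parametrizations
which are directionally monotone at their bad points (the starting result `MonotoneBall`) or almost
affine at all small scales satisfy the hypothesis for suitable functions `r`, by compactness.

The method: the mollification of `H` with the variable radius `r / 5` is a local diffeomorphism,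
because a coarsely increasing function is the sum of an increasing function (its running maximum) and
of a small error. It agrees with `H` near the sphere but it need not be close to `H`; a clopen
argument, based on the points with exactly one preimage, shows that it is injective.
-/

set_option autoImplicit false

open Set Filter Topology Metric Function
open scoped Manifold ContDiff

noncomputable section

namespace Pool.Agent.Results.MP_6c077c_gt.CoarselyMonotoneBall

/-- `ℝ⁴` -/
abbrev R4 : Type := EuclideanSpace ℝ (Fin 4)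

/-- `H` is a local diffeomorphism at `x`: smooth near `x`, with bijective derivative at `x` -/
def LocDiff (H : R4 → R4) (x : R4) : Prop :=
  (∀ᶠ y in 𝓝 x, ContDiffAt ℝ ∞ H y) ∧ Bijective (fderiv ℝ H x)

/-- `H` is coarsely monotone at `x` at the scale `r x`, with the constant `κ`. There is `m` in
`(0, 1]` such that `r` varies by at most `κ m ‖y - x‖` on the ball `B` of radius `r x` about `x`, and
such that for every unit vector `u` there is a linear functional `ℓ` with `|ℓ (H y - H x)| ≤ r x` for
all `y` in `B` and `ℓ (H (y + t u) - H y) ≥ m t - κ m (r x)` for all `y`, `y + t u` in `B`, `t > 0`. -/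
def CoarselyMonotone (κ : ℝ) (H : R4 → R4) (r : R4 → ℝ) (x : R4) : Prop :=
  ∃ m : ℝ, 0 < m ∧ m ≤ 1 ∧ (∀ y, ‖y - x‖ ≤ r x → |r y - r x| ≤ κ * m * ‖y - x‖) ∧
    ∀ u : R4, ‖u‖ = 1 → ∃ ℓ : R4 →L[ℝ] ℝ, (∀ y, ‖y - x‖ ≤ r x → |ℓ (H y - H x)| ≤ r x) ∧
      ∀ (y : R4) (t : ℝ), 0 < t → ‖y - x‖ ≤ r x → ‖y + t • u - x‖ ≤ r x →
        m * t - κ * m * r x ≤ ℓ (H (y + t • u) - H y)

/-- `G` is a diffeomorphism of `ℝ⁴`, equal to a linear isometry outside a compact set (so it extends
to a diffeomorphism of `S⁴`) -/
def StandardAtInfinity (G : R4 → R4) : Prop :=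
  ContDiff ℝ ∞ G ∧ (∃ K : R4 → R4, ContDiff ℝ ∞ K ∧ LeftInverse K G ∧ RightInverse K G) ∧
    ∃ (O : R4 ≃ₗᵢ[ℝ] R4) (R : ℝ), ∀ x, R ≤ ‖x‖ → G x = O x

theorem result : ∃ κ : ℝ, 0 < κ ∧ ∀ H : R4 → R4, ContinuousOn H (closedBall 0 1) →
    InjOn H (sphere 0 1) → (∀ x, ‖x‖ = 1 → LocDiff H x) →
    ∀ (r : R4 → ℝ) (ρ : ℝ), ρ < 1 → ContDiff ℝ ∞ r → (∀ x, 0 ≤ r x) →
    (∀ x, ρ ≤ ‖x‖ → r x = 0) → (∀ x, ‖x‖ < 1 → r x = 0 → LocDiff H x) →
    (∀ x, 0 < r x → CoarselyMonotone κ H r x) →
    ∃ G : R4 → R4, StandardAtInfinity G ∧ (∀ x, ‖x‖ = 1 → G x = H x) ∧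
      (InjOn H (closedBall 0 1) → G '' closedBall 0 1 = H '' closedBall 0 1) := by
  have hn : 1 < Module.rank ℝ R4 := by
    rw [← Module.finrank_eq_rank, finrank_euclideanSpace_fin]
    norm_num
  obtain ⟨κ, hκ, h⟩ := Pool.Agent.K7.H28.CB.coarse_fill 4 hn
  refine ⟨κ, hκ, fun H hc hi hs r ρ hρ hr hr0 hrρ hrz hrc => ?_⟩
  obtain ⟨G, O, R, hb, hL, h1, h2, h3⟩ := h H hc hi
    (fun x hx => Pool.Agent.Y522.LD_of_bij (hs x hx).1 (hs x hx).2) ρ r hρ hr hr0 hrρ
    (fun x hx hx' => Pool.Agent.Y522.LD_of_bij (hrz x hx hx').1 (hrz x hx hx').2) hrc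
  obtain ⟨hG, hK⟩ := Pool.Agent.Y522.smooth_inverse hb hL
  exact ⟨G, ⟨hG, hK, O, R, h3⟩, h1, h2⟩

end Pool.Agent.Results.MP_6c077c_gt.CoarselyMonotoneBall
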