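import Pool.Agent.K7.H28.GS.L11

/-!
# Isotopy finiteness for closed hypersurfaces of `ℝ⁴` which are coarse Lipschitz graphs

The closed smooth hypersurfaces of `ℝ⁴` (among them the smooth 3-spheres of the Schoenflies problem)
are exhausted by the classes `C(R, ρ₀)` of the hypersurfaces which are contained in the ball of radius
`R` and which are coarse Lipschitz graphs (of a fixed aperture `θ`, with errors `ε r`) at every scale
`r ≤ ρ₀`: in each ball of radius `r` about one of its points all vectors of length `≥ ε r` in a cone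
about some direction lead from the closed outside to the open outside. There is no bound for the
curvature and no assumption on scales `r > ρ₀`. We show:

* the type of such a hypersurface, up to diffeomorphisms of `ℝ⁴` with compact support, is determined by
  which points of a `κ ρ₀`-dense set lie outside, where `κ = κ(θ)`; the scale may also be a slowly
  varying function;
* there are only finitely many types in `C(R, ρ₀)`. So in each of the classes there are only finitely
  many types of 3-spheres to be considered for the Schoenflies problem;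
* every closed smooth hypersurface is contained in some `C(R, ρ₀)`.

Proof. If two hypersurfaces have the same signs on a sufficiently dense set, then they are coarse graphs
in common directions at the scale `ρ / 2`: below and above each of the points of a coarse graph there
are balls of radius about `κ ρ` with a constant sign, so that the sign patterns on the dense set determine
the hypersurface up to errors which are small with respect to `ε ρ`. So the claim follows from our
theorem `GraphsAtAllScales` (mollification of the sign of the defining function at all scales `t ρ`,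
`0 < t ≤ 1`, and isotopy of the level sets).
-/

set_option autoImplicit false

open Set Filter Topology Metric Function
open scoped ContDiff

namespace Pool.Agent.Results.MP_6c077c_gt.FinitelyManyTypes

/-- `ℝ⁴` -/
abbrev R4 : Type := EuclideanSpace ℝ (Fin 4)

/-- `{h = 0}` is a closed smooth hypersurface and `h` is a defining function, bounded below by a
positive constant outside a compact set -/
structure Defining (h : R4 → ℝ) : Prop where
  smooth : ContDiff ℝ ∞ h
  far : ∃ R c : ℝ, 0 < c ∧ ∀ x, R ≤ ‖x‖ → c ≤ h x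
  regular : ∀ x, h x = 0 → fderiv ℝ h x ≠ 0

/-- a slowly varying scale: a positive smooth function with derivative of norm at most `ε` -/
structure SlowlyVarying (ε : ℝ) (ρ : R4 → ℝ) : Prop where
  smooth : ContDiff ℝ ∞ ρ
  pos : ∀ x, 0 < ρ x
  slow : ∀ x, ‖fderiv ℝ ρ x‖ ≤ ε

/-- `{h = 0}` is a coarse graph in the direction `ν` in the ball of radius `r` about `x`, with
aperture `θ` and error `ε r`: if `y` and `y'` are in this ball, `y'` lies above `y` in the sense that
`|y' - y - τ ν| ≤ θ τ` for some `τ ≥ ε r`, and `h y ≥ 0`, then `h y' > 0` -/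
def CoarseGraph (θ ε : ℝ) (h : R4 → ℝ) (x : R4) (r : ℝ) (ν : R4) : Prop :=
  ∀ (y y' : R4) (τ : ℝ), ‖y - x‖ ≤ r → ‖y' - x‖ ≤ r → ε * r ≤ τ → ‖y' - y - τ • ν‖ ≤ θ * τ →
    0 ≤ h y → 0 < h y'

/-- `{h = 0}` is a coarse graph, in some direction, at each of its points and at every scale `≤ ρ` -/
def GraphAtAllScales (θ ε : ℝ) (h ρ : R4 → ℝ) : Prop :=
  ∀ x, h x = 0 → ∀ r, 0 < r → r ≤ ρ x → ∃ ν : R4, ‖ν‖ = 1 ∧ CoarseGraph θ ε h x r ν

/-- some diffeomorphism `Φ` of `ℝ⁴`, equal to the identity outside a compact set, maps `{h ≤ 0}` onto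
`{k ≤ 0}` and `{h = 0}` onto `{k = 0}` -/
def Equivalent (h k : R4 → ℝ) : Prop :=
  ∃ Φ : R4 → R4, ContDiff ℝ ∞ Φ ∧
    (∃ Ψ : R4 → R4, ContDiff ℝ ∞ Ψ ∧ LeftInverse Ψ Φ ∧ RightInverse Ψ Φ) ∧
    (∃ R : ℝ, ∀ x, R ≤ ‖x‖ → Φ x = x) ∧ Φ '' {x | h x ≤ 0} = {x | k x ≤ 0} ∧
    Φ '' {x | h x = 0} = {x | k x = 0}

theorem equivalent_of {h k : R4 → ℝ} {Φ Ψ : R4 → R4} (H : Pool.Agent.K7.H28.GS.Cpt Φ Ψ)
    (hs : ∀ x, (0 < k (Φ x) ↔ 0 < h x) ∧ (k (Φ x) < 0 ↔ h x < 0)) : Equivalent h k := by
  obtain ⟨h1, h2, h3, h4, R, hR⟩ := H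
  have hle : ∀ x, k (Φ x) ≤ 0 ↔ h x ≤ 0 := fun x => by
    rw [← not_lt, ← not_lt, (hs x).1]
  have heq : ∀ x, k (Φ x) = 0 ↔ h x = 0 := fun x => by
    have e := hs x
    constructor
    · intro h0
      exact le_antisymm (not_lt.1 fun h' => (e.1.2 h').ne' h0)
        (not_lt.1 fun h' => (e.2.2 h').ne h0)
    · intro h0
      exact le_antisymm (not_lt.1 fun h' => (e.1.1 h').ne' h0)
        (not_lt.1 fun h' => (e.2.1 h').ne h0)
  refine ⟨Φ, h1, ⟨Ψ, h2, h3, h4⟩, ⟨R, hR⟩, ?_, ?_⟩
  · ext y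
    constructor
    · rintro ⟨x, hx, rfl⟩
      exact (hle x).2 hx
    · intro hy
      refine ⟨Ψ y, ?_, h4 y⟩
      have hy' : k y ≤ 0 := hy
      rw [← h4 y] at hy'
      exact (hle _).1 hy'
  · ext y
    constructor
    · rintro ⟨x, hx, rfl⟩
      exact (heq x).2 hx
    · intro hy
      refine ⟨Ψ y, ?_, h4 y⟩
      have hy' : k y = 0 := hy
      rw [← h4 y] at hy'
      exact (heq _).1 hy'

/-- For every `0 < θ < 1` there are `ε, κ > 0` with the following properties.

(1) Let `h` and `k` be defining functions of closed smooth hypersurfaces of `ℝ⁴` which are coarse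
graphs of aperture `θ` at all scales `≤ ρ`, where `ρ` is slowly varying. If `h` and `k` have the same
signs on a set `T` which meets every ball `B(y, κ ρ(y))`, then a diffeomorphism of `ℝ⁴` with compact
support maps `{h ≤ 0}` onto `{k ≤ 0}` and `{h = 0}` onto `{k = 0}`.

(2) For all `R` and `ρ₀ > 0` there is `N` such that among any `N + 1` closed smooth hypersurfaces
`{h i = 0}` which are contained in the ball of radius `R` (`h i > 0` outside) and which are coarse
graphs of aperture `θ` at all scales `≤ ρ₀` there are two which are equivalent in this sense.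

(3) Every closed smooth hypersurface satisfies the conditions in (2) for some `R` and `ρ₀`. -/
theorem result (θ : ℝ) (hθ : 0 < θ) (hθ1 : θ < 1) : ∃ ε κ : ℝ, 0 < ε ∧ 0 < κ ∧
    (∀ h k ρ : R4 → ℝ, Defining h → Defining k → SlowlyVarying ε ρ →
      GraphAtAllScales θ ε h ρ → GraphAtAllScales θ ε k ρ →
      ∀ T : Set R4, (∀ y, ∃ g ∈ T, ‖g - y‖ ≤ κ * ρ y) → (∀ g ∈ T, 0 < h g ↔ 0 < k g) →
      Equivalent h k) ∧
    (∀ R ρ₀ : ℝ, 0 < ρ₀ → ∃ N : ℕ, ∀ h : Fin (N + 1) → R4 → ℝ, (∀ i, Defining (h i)) →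
      (∀ i x, R ≤ ‖x‖ → 0 < h i x) → (∀ i, GraphAtAllScales θ ε (h i) fun _ => ρ₀) →
      ∃ i j, i ≠ j ∧ Equivalent (h i) (h j)) ∧
    ∀ h : R4 → ℝ, Defining h → ∃ R ρ₀ : ℝ, 0 < ρ₀ ∧ (∀ x, R ≤ ‖x‖ → 0 < h x) ∧
      GraphAtAllScales θ ε h fun _ => ρ₀ := by
  obtain ⟨ε, κ, hε, hκ, key⟩ := Pool.Agent.K7.H28.GS.recognition 4 θ hθ hθ1.le
  refine ⟨ε, κ, hε, hκ, ?_, ?_, ?_⟩
  · intro h k ρ hh hk hρ hgh hgk T hT hs
    obtain ⟨Φ, Ψ, H, hsg⟩ := key h k ρ ⟨hh.smooth, hh.far, hh.regular⟩
      ⟨hk.smooth, hk.far, hk.regular⟩ ⟨hρ.smooth, hρ.pos, hρ.slow⟩ hgh hgk T hT hs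
    exact equivalent_of H hsg
  · intro R ρ₀ hρ₀
    obtain ⟨N, hN⟩ := Pool.Agent.K7.H28.GS.finiteness hκ hε.le key (R := R) hρ₀
    refine ⟨N, fun h hh hR hC => ?_⟩
    obtain ⟨i, j, hij, Φ, Ψ, H, hsg⟩ := hN h
      (fun i => ⟨(hh i).smooth, (hh i).far, (hh i).regular⟩) hR hC
    exact ⟨i, j, hij, equivalent_of H hsg⟩
  · intro h hh
    obtain ⟨ρ₀, hρ₀, hC⟩ := Pool.Agent.K7.H28.GS.exhaust (h := h)
      ⟨hh.smooth, hh.far, hh.regular⟩ hθ hθ1 hε
    obtain ⟨R, c, hc, hR⟩ := hh.far
    exact ⟨R, ρ₀, hρ₀, fun x hx => hc.trans_le (hR x hx), hC⟩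

end Pool.Agent.Results.MP_6c077c_gt.FinitelyManyTypes
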