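import Pool.Agent.K7.H28.GS.L9

/-!
# Smooth Schoenflies for hypersurfaces which are coarse Lipschitz graphs at all small scales

Let `M = {h = 0}` and `Σ = {k = 0}` be closed smooth hypersurfaces of `ℝ⁴` (no parametrization is
given, and they are not assumed to be spheres or connected). We show that there is a diffeomorphism of
`ℝ⁴` with compact support which maps `M` onto `Σ` and the inside `{h < 0}` onto the inside `{k < 0}` if

* at each of its points `x` and at every scale `r ≤ ρ(x)` the hypersurface `M` is, up to errors `ε r`,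
  a Lipschitz graph in some direction: there is a unit vector `ν = ν(x, r)` such that in the ball
  `B(x, r)` all vectors of length `≥ ε r` in a cone about `ν` lead from `{h ≥ 0}` to `{h > 0}`; and the
  same for `Σ` (with other directions);
* at the scale `ρ(x)` there are common directions for `M` and `Σ`, and the points between `M` and `Σ`
  are at distance at most `ρ / 32` of `M ∪ Σ`.

Here the aperture `θ` of the cones is arbitrary, so that the Lipschitz constants of the graphs may be
arbitrarily large, `ε` depends on `θ` only, the scale `ρ` is a slowly varying function, and the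
directions `ν(x, r)` may depend on `x` and `r` in an arbitrary way (between the scale `ρ` and very small
scales they may turn around arbitrarily often). In particular `M` is unknotted if `Σ` is, for instance
if `Σ` is the unit sphere. Hypersurfaces which are Reifenberg flat, with a small constant, at the scales
`r ≤ ρ(x)` satisfy the first condition.

Proof. Let `F(x, t)` be the mean, with a smooth weight, of the sign of `h` in the ball of radius
`t ρ(x) / 16` about `x`. At a point with `F(x, t) = 0` the derivative of `F` in the direction `ν` is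
positive: it is approximated by the difference quotients with steps of size about `ε r`, which are
non-negative by the cone condition, and which are bounded below because the hypersurface meets the ball
and a definite portion of the lines with direction `ν` pass from `{h < 0}` to `{h > 0}` inside the
ball. So the level sets `{F(·, t) = 0}`, `0 < t ≤ 1`, are regular and isotopic; they converge to `M` as
`t` tends to zero (the sign of `h` is replaced by a smooth function of `h`). At `t = 1` one passes to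
`Σ` by convex combinations.
-/

set_option autoImplicit false

open Set Filter Topology Metric Function
open scoped ContDiff

namespace Pool.Agent.Results.MP_6c077c_gt.GraphsAtAllScales

/-- `ℝ⁴` -/
abbrev R4 : Type := EuclideanSpace ℝ (Fin 4)

/-- `{h = 0}` is a closed smooth hypersurface and `h` is a defining function, bounded below by a
positive constant outside a compact set -/
structure Defining (h : R4 → ℝ) : Prop where
  smooth : ContDiff ℝ ∞ h
  far : ∃ R c : ℝ, 0 < c ∧ ∀ x, R ≤ ‖x‖ → c ≤ h x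
  regular : ∀ x, h x = 0 → fderiv ℝ h x ≠ 0

/-- a slowly varying scale: a positive smooth function with derivative of norm at most `ε` -/
structure SlowlyVarying (ε : ℝ) (ρ : R4 → ℝ) : Prop where
  smooth : ContDiff ℝ ∞ ρ
  pos : ∀ x, 0 < ρ x
  slow : ∀ x, ‖fderiv ℝ ρ x‖ ≤ ε

/-- `{h = 0}` is a coarse graph in the direction `ν` in the ball of radius `r` about `x`, with
aperture `θ` and error `ε r`: if `y` and `y'` are in this ball, `y'` lies above `y` in the sense that
`|y' - y - τ ν| ≤ θ τ` for some `τ ≥ ε r`, and `h y ≥ 0`, then `h y' > 0` -/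
def CoarseGraph (θ ε : ℝ) (h : R4 → ℝ) (x : R4) (r : ℝ) (ν : R4) : Prop :=
  ∀ (y y' : R4) (τ : ℝ), ‖y - x‖ ≤ r → ‖y' - x‖ ≤ r → ε * r ≤ τ → ‖y' - y - τ • ν‖ ≤ θ * τ →
    0 ≤ h y → 0 < h y'

/-- `{h = 0}` is a coarse graph, in some direction, at each of its points and at every scale `≤ ρ` -/
def GraphAtAllScales (θ ε : ℝ) (h ρ : R4 → ℝ) : Prop :=
  ∀ x, h x = 0 → ∀ r, 0 < r → r ≤ ρ x → ∃ ν : R4, ‖ν‖ = 1 ∧ CoarseGraph θ ε h x r ν

/-- at the scale `ρ` the hypersurfaces `{h = 0}` and `{k = 0}` are coarse graphs in common directions,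
and the points between them are at distance at most `ρ / 32` of their union -/
def CommonDirections (θ ε : ℝ) (h k ρ : R4 → ℝ) : Prop :=
  (∀ x, h x = 0 ∨ k x = 0 → ∃ ν : R4, ‖ν‖ = 1 ∧ CoarseGraph θ ε h x (ρ x) ν ∧
    CoarseGraph θ ε k x (ρ x) ν) ∧
  ∀ y, h y * k y < 0 → ∃ x, (h x = 0 ∨ k x = 0) ∧ ‖x - y‖ ≤ ρ y / 32

/-- `Φ` is a diffeomorphism of `ℝ⁴`, equal to the identity outside a compact set -/
def CompactSupport (Φ : R4 → R4) : Prop :=
  ContDiff ℝ ∞ Φ ∧ (∃ Ψ : R4 → R4, ContDiff ℝ ∞ Ψ ∧ LeftInverse Ψ Φ ∧ RightInverse Ψ Φ) ∧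
    ∃ R : ℝ, ∀ x, R ≤ ‖x‖ → Φ x = x

/-- `{h = 0}` is unknotted: there is a diffeomorphism `G` of `ℝ⁴`, equal to a linear isometry outside a
compact set (so it extends to a diffeomorphism of `S⁴`), which maps the closed unit ball onto
`{h ≤ 0}` and the unit sphere onto `{h = 0}` -/
def Unknotted (h : R4 → ℝ) : Prop :=
  ∃ G : R4 → R4, ContDiff ℝ ∞ G ∧
    (∃ K : R4 → R4, ContDiff ℝ ∞ K ∧ LeftInverse K G ∧ RightInverse K G) ∧
    (∃ (O : R4 ≃ₗᵢ[ℝ] R4) (R : ℝ), ∀ x, R ≤ ‖x‖ → G x = O x) ∧
    G '' closedBall 0 1 = {x | h x ≤ 0} ∧ G '' sphere 0 1 = {x | h x = 0}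

/-- For every `0 < θ < 1` there is `ε > 0` with the following property. Let `h` and `k` be defining
functions of closed smooth hypersurfaces of `ℝ⁴` and `ρ` a slowly varying scale, such that both
hypersurfaces are coarse graphs of aperture `θ` at every scale `≤ ρ`, and at the scale `ρ` in common
directions. Then a diffeomorphism of `ℝ⁴` with compact support maps `{h ≤ 0}` onto `{k ≤ 0}` and
`{h = 0}` onto `{k = 0}`. In particular `{h = 0}` is unknotted if `{k = 0}` is unknotted. -/
theorem result (θ : ℝ) (hθ : 0 < θ) (hθ1 : θ < 1) : ∃ ε : ℝ, 0 < ε ∧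
    ∀ h k ρ : R4 → ℝ, Defining h → Defining k → SlowlyVarying ε ρ →
      GraphAtAllScales θ ε h ρ → GraphAtAllScales θ ε k ρ → CommonDirections θ ε h k ρ →
      (∃ Φ : R4 → R4, CompactSupport Φ ∧ Φ '' {x | h x ≤ 0} = {x | k x ≤ 0} ∧
        Φ '' {x | h x = 0} = {x | k x = 0}) ∧ (Unknotted k → Unknotted h) := by
  obtain ⟨ε, hε, main⟩ := Pool.Agent.K7.H28.GS.main 4 θ hθ hθ1.le
  refine ⟨ε, hε, ?_⟩
  intro h k ρ hh hk hρ hgh hgk hc
  obtain ⟨Φ, Ψ, ⟨h1, h2, h3, h4, R, hR⟩, hs⟩ := main h k ρ ⟨hh.smooth, hh.far, hh.regular⟩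
    ⟨hk.smooth, hk.far, hk.regular⟩ ⟨hρ.smooth, hρ.pos, hρ.slow⟩ hgh hgk
    (fun x hx => hc.1 x (mul_eq_zero.1 hx)) (fun y hy => by
      obtain ⟨x, hx, hxd⟩ := hc.2 y hy
      exact ⟨x, mul_eq_zero.2 hx, hxd⟩)
  have hle : ∀ x, k (Φ x) ≤ 0 ↔ h x ≤ 0 := fun x => by
    rw [← not_lt, ← not_lt, (hs x).1]
  have heq : ∀ x, k (Φ x) = 0 ↔ h x = 0 := fun x => by
    have e := hs x
    constructor
    · intro h0
      exact le_antisymm (not_lt.1 fun h' => (e.1.2 h').ne' h0)
        (not_lt.1 fun h' => (e.2.2 h').ne h0)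
    · intro h0
      exact le_antisymm (not_lt.1 fun h' => (e.1.1 h').ne' h0)
        (not_lt.1 fun h' => (e.2.1 h').ne h0)
  have e1 : Φ '' {x | h x ≤ 0} = {x | k x ≤ 0} := by
    ext y
    constructor
    · rintro ⟨x, hx, rfl⟩
      exact (hle x).2 hx
    · intro hy
      refine ⟨Ψ y, ?_, h4 y⟩
      have hy' : k y ≤ 0 := hy
      rw [← h4 y] at hy'
      exact (hle _).1 hy'
  have e2 : Φ '' {x | h x = 0} = {x | k x = 0} := by
    ext y
    constructor
    · rintro ⟨x, hx, rfl⟩
      exact (heq x).2 hx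
    · intro hy
      refine ⟨Ψ y, ?_, h4 y⟩
      have hy' : k y = 0 := hy
      rw [← h4 y] at hy'
      exact (heq _).1 hy'
  refine ⟨⟨Φ, ⟨h1, ⟨Ψ, h2, h3, h4⟩, R, hR⟩, e1, e2⟩, ?_⟩
  rintro ⟨G, g1, ⟨K, g2, g3, g4⟩, ⟨O, R', hO⟩, g5, g6⟩
  have hR2 : ∀ x, R ≤ ‖x‖ → Ψ x = x := by
    intro x hx
    have := h3 x
    rwa [hR x hx] at this
  refine ⟨fun x => Ψ (G x), h2.comp g1, ⟨fun x => K (Φ x), g2.comp h1, fun x => ?_, fun x => ?_⟩,
    ⟨O, max R R', fun x hx => ?_⟩, ?_, ?_⟩
  · change K (Φ (Ψ (G x))) = x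
    rw [h4, g3 x]
  · change Ψ (G (K (Φ x))) = x
    rw [g4 (Φ x), h3]
  · change Ψ (G x) = O x
    rw [hO x ((le_max_right _ _).trans hx)]
    refine hR2 _ ?_
    rw [O.norm_map]
    exact (le_max_left _ _).trans hx
  · have e3 : (fun x => Ψ (G x)) '' closedBall 0 1 = Ψ '' (G '' closedBall 0 1) := by
      rw [image_image]
    rw [e3, g5, ← e1, image_image]
    simp only [h3, image_id']
  · have e3 : (fun x => Ψ (G x)) '' sphere 0 1 = Ψ '' (G '' sphere 0 1) := by
      rw [image_image]
    rw [e3, g6, ← e2, image_image]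
    simp only [h3, image_id']

end Pool.Agent.Results.MP_6c077c_gt.GraphsAtAllScales
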